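import Mathlib

/-!
# Superstructures, nonstandard extensions, and divisibility of ultrafilters: the definitions

We formalise superstructures over a set of individuals, nonstandard extensions of
superstructures (transfer for all bounded formulas), enlargements, monads of ultrafilters on
the positive integers and the divisibility relation `F ~| G` between ultrafilters.
-/

namespace Pool.Agent.Lib.MP_c54df4_lc

open Filter

universe u v

/-! ## Superstructures -/

/-- `Lvl X n` is the `n`-th level `V_n(X)` of the superstructure over a set `X` of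
individuals: `V_0(X) = X` and `V_{n+1}(X) = X ∪ P(V_n(X))`, a disjoint union because individuals
are not sets. (This is the same as `V_{n+1}(X) = V_n(X) ∪ P(V_n(X))`.) -/
def Lvl (X : Type u) : ℕ → Type u
  | 0 => X
  | n + 1 => X ⊕ Set (Lvl X n)

/-- The individual `x`, as an element of level `n`. -/
def ind {X : Type u} : (n : ℕ) → X → Lvl X n
  | 0, x => x
  | _ + 1, x => Sum.inl x

/-- The set `s` of elements of level `n`, as an element of level `n + 1`. -/
def set {X : Type u} {n : ℕ} (s : Set (Lvl X n)) : Lvl X (n + 1) := Sum.inr s

/-- The inclusion of `V_n(X)` in `V_{n+1}(X)`: an individual goes to itself and a set to the set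
of the images of its elements. -/
def up {X : Type u} : (n : ℕ) → Lvl X n → Lvl X (n + 1)
  | 0, x => ind 1 x
  | n + 1, Sum.inl x => ind (n + 2) x
  | n + 1, Sum.inr s => set (up n '' s)

/-- The inclusion of `V_m(X)` in `V_n(X)` for `m ≤ n`. -/
def upTo {X : Type u} {m n : ℕ} (h : m ≤ n) : Lvl X m → Lvl X n :=
  Nat.leRecOn h (fun {k} => up k)

theorem upTo_trans {X : Type u} {k m n : ℕ} (h : k ≤ m) (h' : m ≤ n) (x : Lvl X k) :
    upTo h' (upTo h x) = upTo (h.trans h') x :=
  (Nat.leRecOn_trans h h' x).symm

/-- Two elements of levels of the superstructure are identified when they have the same image in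
some common level. -/
def levelSetoid (X : Type u) : Setoid (Σ n, Lvl X n) where
  r a b := ∃ (N : ℕ) (ha : a.1 ≤ N) (hb : b.1 ≤ N), upTo ha a.2 = upTo hb b.2
  iseqv :=
    { refl := fun a => ⟨a.1, le_refl _, le_refl _, rfl⟩
      symm := fun ⟨N, ha, hb, h⟩ => ⟨N, hb, ha, h.symm⟩
      trans := by
        rintro a b c ⟨N, ha, hb, h⟩ ⟨M, hb', hc, h'⟩
        refine ⟨max N M, ha.trans (le_max_left _ _), hc.trans (le_max_right _ _), ?_⟩
        rw [← upTo_trans ha (le_max_left N M), h, upTo_trans, ← upTo_trans hc (le_max_right N M),
          ← h', upTo_trans] }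

/-- The superstructure `V(X)`: the union of the levels `V_n(X)`. -/
def V (X : Type u) : Type u := Quotient (levelSetoid X)

/-- An element of level `n`, as an element of `V(X)`. -/
def el {X : Type u} (n : ℕ) (x : Lvl X n) : V X := Quotient.mk (levelSetoid X) ⟨n, x⟩

/-- Membership in the superstructure: `a ∈ b` when, for some `n`, `b` is a set of elements of level
`n` and `a` is an element of it. Individuals have no elements. -/
def Mem {X : Type u} (a b : V X) : Prop :=
  ∃ (n : ℕ) (x : Lvl X n) (s : Set (Lvl X n)), a = el n x ∧ b = el (n + 1) (set s) ∧ x ∈ s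

/-! ## Bounded formulas and nonstandard extensions -/

/-- Bounded formulas of the language of set theory with free variables `v_0, …, v_{k-1}`.
`ball i φ` is the bounded quantification `∀ z ∈ v_i, φ`, where `z` is the new last variable. -/
inductive Fml : ℕ → Type
  | eq {k : ℕ} (i j : Fin k) : Fml k
  | mem {k : ℕ} (i j : Fin k) : Fml k
  | neg {k : ℕ} (φ : Fml k) : Fml k
  | and {k : ℕ} (φ ψ : Fml k) : Fml k
  | ball {k : ℕ} (i : Fin k) (φ : Fml (k + 1)) : Fml k

/-- Satisfaction of a bounded formula in the superstructure `V(X)` under an assignment. -/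
def Sat {X : Type u} : {k : ℕ} → Fml k → (Fin k → V X) → Prop
  | _, .eq i j, w => w i = w j
  | _, .mem i j, w => Mem (w i) (w j)
  | _, .neg φ, w => ¬ Sat φ w
  | _, .and φ ψ, w => Sat φ w ∧ Sat ψ w
  | k, .ball i φ, w => ∀ z, Mem z (w i) → Sat φ (Fin.snoc (α := fun _ : Fin (k + 1) => V X) w z)

/-- The individual `x : X` as an element of the superstructure. -/
def atom {X : Type u} (x : X) : V X := el 0 (ind 0 x)

/-- The set `A` of individuals as an element of the superstructure. -/
def ofSet {X : Type u} (A : Set X) : V X := el 1 (set (ind 0 '' A))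

/-- A nonstandard extension of the superstructure over `X`: a map `*` from `V(X)` to the
superstructure over a set `Y` (thought of as `*X`) with `*X = Y`, satisfying the transfer
principle: a bounded formula holds of elements of `V(X)` exactly when it holds of their images. -/
structure NonstdExt (X : Type u) (Y : Type v) where
  star : V X → V Y
  star_univ : star (ofSet Set.univ) = ofSet Set.univ
  transfer : ∀ {k : ℕ} (φ : Fml k) (w : Fin k → V X), Sat φ w ↔ Sat φ (fun i => star (w i))

namespace NonstdExt

variable {X : Type u} {Y : Type v} (E : NonstdExt X Y)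

/-- `E` is an enlargement: every family of standard sets with the finite intersection property has
a common element in the intersection of the images of its members. -/
def IsEnlargement : Prop :=
  ∀ 𝒜 : Set (V X), (∀ B : Finset (V X), (∀ A ∈ B, A ∈ 𝒜) → ∃ z, ∀ A ∈ B, Mem z A) →
    ∃ z, ∀ A ∈ 𝒜, Mem z (E.star A)

/-- The monad `μ(F)` of an ultrafilter `F` on `X`: the elements of `*X` lying in `*A` for every
`A ∈ F`. -/
def monad (F : Ultrafilter X) : Set Y := {y | ∀ A ∈ F, Mem (atom y) (E.star (ofSet A))}

end NonstdExt

/-- The ordered pair `(x, y) = {{x}, {x, y}}` of two elements of level `n`. -/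
def opair {X : Type u} {n : ℕ} (x y : Lvl X n) : Lvl X (n + 2) := set {set {x}, set {x, y}}

/-- The ordered triple `((x, y), z)` of three individuals. -/
def triple {X : Type u} (x y z : X) : Lvl X 4 := opair (opair (ind 0 x) (ind 0 y)) (ind 2 z)

/-- The graph of multiplication on the positive integers, as an element of the superstructure. -/
def mulGraph : V ℕ+ := el 5 (set {p | ∃ a b : ℕ+, p = triple a b (a * b)})

/-- The extension of divisibility to `*N`: `x` divides `y` when `x z = y` for some `z ∈ *N`, where
the product is the one given by the extension of the graph of multiplication. -/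
def NonstdExt.Dvd {Y : Type v} (E : NonstdExt ℕ+ Y) (x y : Y) : Prop :=
  ∃ z : Y, Mem (el 4 (triple x z y)) (E.star mulGraph)

/-- Divisibility of ultrafilters: `F ~| G` when `A↑ ∈ G` for every `A ∈ F`, where `A↑` is the set of
the multiples of elements of `A`. -/
def UDvd (F G : Ultrafilter ℕ+) : Prop := ∀ A ∈ F, {n : ℕ+ | ∃ a ∈ A, a ∣ n} ∈ G

end Pool.Agent.Lib.MP_c54df4_lc
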