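import Pool.Agent.Lib.MP_c54df4_lc.Defs

/-!
# Divisor witnesses in monads: the answer is negative (proof)

Bounded ultrapowers of superstructures, and the proof that there is an enlargement in which the
divisor-witness property fails.
-/

namespace Pool.Agent.Lib.MP_c54df4_lc

open Filter

universe u v

theorem cases_succ {X : Type u} {n : ℕ} (y : Lvl X (n + 1)) :
    (∃ x, y = ind (n + 1) x) ∨ ∃ s, y = set s := by
  rcases y with x | s
  · exact Or.inl ⟨x, rfl⟩
  · exact Or.inr ⟨s, rfl⟩

theorem set_injective {X : Type u} {n : ℕ} : Function.Injective (set (X := X) (n := n)) :=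
  fun _ _ h => Sum.inr_injective h

theorem ind_injective {X : Type u} : ∀ n : ℕ, Function.Injective (ind (X := X) n)
  | 0 => fun _ _ h => h
  | _ + 1 => fun _ _ h => Sum.inl_injective h

theorem ind_ne_set {X : Type u} {n : ℕ} (x : X) (s : Set (Lvl X n)) : ind (n + 1) x ≠ set s :=
  fun h => Sum.inl_ne_inr h

theorem up_ind {X : Type u} : ∀ (n : ℕ) (x : X), up n (ind n x) = ind (n + 1) x
  | 0, _ => rfl
  | _ + 1, _ => rfl

theorem up_set {X : Type u} {n : ℕ} (s : Set (Lvl X n)) : up (n + 1) (set s) = set (up n '' s) :=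
  rfl

theorem up_injective {X : Type u} : ∀ n, Function.Injective (up (X := X) n)
  | 0 => fun x y h => ind_injective 1 h
  | n + 1 => by
    intro a b h
    rcases cases_succ a with ⟨x, rfl⟩ | ⟨s, rfl⟩ <;> rcases cases_succ b with ⟨y, rfl⟩ | ⟨t, rfl⟩
    · rw [up_ind, up_ind] at h; rw [ind_injective _ h]
    · rw [up_ind, up_set] at h; exact absurd h (ind_ne_set _ _)
    · rw [up_ind, up_set] at h; exact absurd h.symm (ind_ne_set _ _)
    · rw [up_set, up_set] at h
      rw [Set.image_injective.2 (up_injective n) (set_injective h)]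

theorem upTo_self {X : Type u} {n : ℕ} (x : Lvl X n) : upTo (le_refl n) x = x :=
  Nat.leRecOn_self x

theorem upTo_succ {X : Type u} {m n : ℕ} (h : m ≤ n) (h' : m ≤ n + 1) (x : Lvl X m) :
    upTo h' x = up n (upTo h x) :=
  Nat.leRecOn_succ h x

theorem upTo_injective {X : Type u} {m n : ℕ} (h : m ≤ n) :
    Function.Injective (upTo (X := X) h) := by
  induction n, h using Nat.le_induction with
  | base => intro x y hxy; rwa [upTo_self, upTo_self] at hxy
  | succ n h ih =>
    intro x y hxy
    rw [upTo_succ h, upTo_succ h] at hxy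
    exact ih (up_injective n hxy)

theorem upTo_ind {X : Type u} {m n : ℕ} (h : m ≤ n) (x : X) :
    upTo h (ind m x) = ind n x := by
  induction n, h using Nat.le_induction with
  | base => rw [upTo_self]
  | succ n h ih => rw [upTo_succ h, ih, up_ind]

theorem upTo_set {X : Type u} {m n : ℕ} (h : m ≤ n) (h' : m + 1 ≤ n + 1) (s : Set (Lvl X m)) :
    upTo h' (set s) = set (upTo h '' s) := by
  induction n, h using Nat.le_induction with
  | base =>
    rw [upTo_self]
    congr 1
    ext x
    simp [upTo_self]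
  | succ n h ih =>
    rw [upTo_succ (Nat.succ_le_succ h), ih, up_set]
    congr 1
    ext x
    simp only [Set.mem_image, exists_exists_and_eq_and]
    constructor
    · rintro ⟨a, ha, rfl⟩; exact ⟨a, ha, upTo_succ h _ a⟩
    · rintro ⟨a, ha, rfl⟩; exact ⟨a, ha, (upTo_succ h _ a).symm⟩

theorem exists_el {X : Type u} (a : V X) : ∃ n x, a = el n x := by
  induction a using Quotient.ind with
  | _ a => exact ⟨a.1, a.2, rfl⟩

theorem el_upTo {X : Type u} {m n : ℕ} (h : m ≤ n) (x : Lvl X m) : el n (upTo h x) = el m x :=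
  Quotient.sound ⟨n, le_refl _, h, upTo_self _⟩

theorem el_up {X : Type u} (n : ℕ) (x : Lvl X n) : el (n + 1) (up n x) = el n x := by
  have := el_upTo (Nat.le_succ n) x
  rwa [upTo_succ (le_refl n), upTo_self] at this

theorem el_injective {X : Type u} (n : ℕ) : Function.Injective (el (X := X) n) := by
  intro x y h
  obtain ⟨N, ha, hb, h'⟩ := Quotient.exact h
  exact upTo_injective ha h'

theorem mem_level {X : Type u} {n : ℕ} {a : V X} {y : Lvl X (n + 1)} (h : Mem a (el (n + 1) y)) :
    ∃ x s, a = el n x ∧ y = set s ∧ x ∈ s := by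
  obtain ⟨m, x', s', h1, h2, h3⟩ := h
  have hn : n ≤ max n m := le_max_left _ _
  have hm : m ≤ max n m := le_max_right _ _
  rw [← el_upTo (Nat.succ_le_succ hn), ← el_upTo (Nat.succ_le_succ hm), upTo_set hm] at h2
  have h2' := el_injective _ h2
  rcases cases_succ y with ⟨y, rfl⟩ | ⟨s, rfl⟩
  · rw [upTo_ind] at h2'
    exact absurd h2' (ind_ne_set _ _)
  · rw [upTo_set hn] at h2'
    have : upTo hm x' ∈ upTo hn '' s := by rw [set_injective h2']; exact ⟨x', h3, rfl⟩
    obtain ⟨x, hx, hxx⟩ := this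
    refine ⟨x, s, ?_, rfl, hx⟩
    rw [h1, ← el_upTo hm, ← hxx, el_upTo hn]

theorem mem_el {X : Type u} {n : ℕ} (x : Lvl X n) (s : Set (Lvl X n)) :
    Mem (el n x) (el (n + 1) (set s)) ↔ x ∈ s := by
  constructor
  · intro h
    obtain ⟨x', s', h1, h2, h3⟩ := mem_level h
    rwa [el_injective _ h1, set_injective h2]
  · intro h; exact ⟨n, x, s, rfl, rfl, h⟩

/-! ## The bounded ultrapower of a superstructure -/

section Ultrapower

variable {ι : Type u} {X : Type u} [Inhabited X] (W : Ultrafilter ι)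

/-- An element of level `0` is an individual. -/
def asInd {X : Type u} (x : Lvl X 0) : X := x

open Classical in
/-- The collapse of the bounded ultrapower into the superstructure over the ultrapower of `X`. -/
noncomputable def col : (n : ℕ) → (ι → Lvl X n) → Lvl (Germ (W : Filter ι) X) n
  | 0, f => ind 0 ((fun i => asInd (f i) : ι → X) : Germ (W : Filter ι) X)
  | n + 1, f =>
    if ∀ᶠ i in (W : Filter ι), ∃ x, f i = ind (n + 1) x then
      ind (n + 1) ((fun i => if h : ∃ x, f i = ind (n + 1) x then h.choose else default : ι → X) :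
        Germ (W : Filter ι) X)
    else set {z | ∃ g : ι → Lvl X n, (∀ᶠ i in (W : Filter ι), ∃ s, f i = set s ∧ g i ∈ s) ∧
      z = col n g}

theorem col_ind {n : ℕ} {f : ι → Lvl X n} {h : ι → X}
    (hf : ∀ᶠ i in (W : Filter ι), f i = ind n (h i)) :
    col W n f = ind n (h : Germ (W : Filter ι) X) := by
  cases n with
  | zero =>
    show ind 0 _ = ind 0 _
    congr 1
    exact Germ.coe_eq.2 hf
  | succ n =>
    have h1 : ∀ᶠ i in (W : Filter ι), ∃ x, f i = ind (n + 1) x := hf.mono fun i hi => ⟨_, hi⟩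
    rw [col, if_pos h1]
    congr 1
    refine Germ.coe_eq.2 ?_
    filter_upwards [hf] with i hi
    have h2 : ∃ x, f i = ind (n + 1) x := ⟨_, hi⟩
    rw [dif_pos h2]
    exact ind_injective _ (h2.choose_spec.symm.trans hi)

theorem col_set {n : ℕ} {f : ι → Lvl X (n + 1)}
    (hf : ∀ᶠ i in (W : Filter ι), ∃ s, f i = set s) :
    col W (n + 1) f = set {z | ∃ g : ι → Lvl X n,
      (∀ᶠ i in (W : Filter ι), ∃ s, f i = set s ∧ g i ∈ s) ∧ z = col W n g} := by
  have h1 : ¬ ∀ᶠ i in (W : Filter ι), ∃ x, f i = ind (n + 1) x := by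
    intro h
    obtain ⟨i, ⟨x, hx⟩, s, hs⟩ := (h.and hf).exists
    exact ind_ne_set x s (hx.symm.trans hs)
  rw [col, if_neg h1]

theorem col_eq_iff : ∀ {n : ℕ} {f g : ι → Lvl X n},
    col W n f = col W n g ↔ ∀ᶠ i in (W : Filter ι), f i = g i
  | 0, f, g => ⟨fun h => Germ.coe_eq.1 (ind_injective 0 h), fun h => congrArg (ind 0) (Germ.coe_eq.2 h)⟩
  | n + 1, f, g => by
    have hcase : ∀ f : ι → Lvl X (n + 1), (∃ h : ι → X, ∀ᶠ i in (W : Filter ι), f i = ind (n + 1) (h i)) ∨
        ∀ᶠ i in (W : Filter ι), ∃ s, f i = set s := by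
      intro f
      rcases Ultrafilter.em W (fun i => ∃ x, f i = ind (n + 1) x) with h | h
      · left
        classical
        refine ⟨fun i => if h : ∃ x, f i = ind (n + 1) x then h.choose else default, ?_⟩
        filter_upwards [h] with i hi
        rw [dif_pos hi]
        exact hi.choose_spec
      · right
        filter_upwards [h] with i hi
        rcases cases_succ (f i) with h' | h'
        · exact absurd h' hi
        · exact h'
    rcases hcase f with ⟨h, hf⟩ | hf <;> rcases hcase g with ⟨h', hg⟩ | hg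
    · rw [col_ind W hf, col_ind W hg]
      constructor
      · intro hh
        have := Germ.coe_eq.1 (ind_injective _ hh)
        filter_upwards [this, hf, hg] with i h1 h2 h3
        rw [h2, h3, h1]
      · intro hh
        congr 1
        refine Germ.coe_eq.2 ?_
        filter_upwards [hh, hf, hg] with i h1 h2 h3
        exact ind_injective _ (h2.symm.trans (h1.trans h3))
    · rw [col_ind W hf, col_set W hg]
      constructor
      · intro hh; exact absurd hh (ind_ne_set _ _)
      · intro hh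
        obtain ⟨i, h1, h2, s, h3⟩ := (hh.and (hf.and hg)).exists
        exact absurd (h2.symm.trans (h1.trans h3)) (ind_ne_set _ _)
    · rw [col_set W hf, col_ind W hg]
      constructor
      · intro hh; exact absurd hh.symm (ind_ne_set _ _)
      · intro hh
        obtain ⟨i, h1, ⟨s, h2⟩, h3⟩ := (hh.and (hf.and hg)).exists
        exact absurd (h3.symm.trans (h1.symm.trans h2)) (ind_ne_set _ _)
    · rw [col_set W hf, col_set W hg]
      constructor
      · intro hh
        have hh' := set_injective hh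
        by_contra hne
        have hne' : ∀ᶠ i in (W : Filter ι), f i ≠ g i := Ultrafilter.eventually_not.2 hne
        -- one of the two sets is almost everywhere not contained in the other
        have key : ∀ f g : ι → Lvl X (n + 1), (∀ᶠ i in (W : Filter ι), ∃ s, f i = set s) →
            (∀ᶠ i in (W : Filter ι), ∃ s, g i = set s) →
            (∀ᶠ i in (W : Filter ι), ∃ x s t, f i = set s ∧ g i = set t ∧ x ∈ s ∧ x ∉ t) →
            {z | ∃ h : ι → Lvl X n,
              (∀ᶠ i in (W : Filter ι), ∃ s, f i = set s ∧ h i ∈ s) ∧ z = col W n h} ≠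
            {z | ∃ h : ι → Lvl X n,
              (∀ᶠ i in (W : Filter ι), ∃ s, g i = set s ∧ h i ∈ s) ∧ z = col W n h} := by
          intro f g hf hg hfg heq
          have hne : Nonempty (Lvl X n) := ⟨ind n default⟩
          classical
          choose! x s t hx using fun i
            (hi : ∃ x s t, f i = set s ∧ g i = set t ∧ x ∈ s ∧ x ∉ t) => hi
          have h1 : col W n x ∈ {z | ∃ h : ι → Lvl X n,
              (∀ᶠ i in (W : Filter ι), ∃ s, f i = set s ∧ h i ∈ s) ∧ z = col W n h} := by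
            refine ⟨x, ?_, rfl⟩
            filter_upwards [hfg] with i hi
            exact ⟨s i, (hx i hi).1, (hx i hi).2.2.1⟩
          rw [heq] at h1
          obtain ⟨y, hy, hxy⟩ := h1
          have hxy' := col_eq_iff.1 hxy
          obtain ⟨i, hi1, ⟨s', hs', hi2⟩, hi3⟩ := (hfg.and (hy.and hxy')).exists
          have := hx i hi1
          have hst : t i = s' := set_injective (this.2.1.symm.trans hs')
          apply this.2.2.2
          rw [hi3, hst]
          exact hi2
        have hsplit : (∀ᶠ i in (W : Filter ι), ∃ x s t, f i = set s ∧ g i = set t ∧ x ∈ s ∧ x ∉ t) ∨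
            ∀ᶠ i in (W : Filter ι), ∃ x s t, g i = set s ∧ f i = set t ∧ x ∈ s ∧ x ∉ t := by
          rw [← Ultrafilter.eventually_or]
          filter_upwards [hf, hg, hne'] with i ⟨s, hs⟩ ⟨t, ht⟩ hi
          have hst : s ≠ t := by
            rintro rfl
            exact hi (hs.trans ht.symm)
          by_cases h1 : s ⊆ t
          · have h2 : ¬ t ⊆ s := fun h2 => hst (Set.Subset.antisymm h1 h2)
            obtain ⟨x, hx1, hx2⟩ := Set.not_subset.1 h2
            exact Or.inr ⟨x, t, s, ht, hs, hx1, hx2⟩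
          · obtain ⟨x, hx1, hx2⟩ := Set.not_subset.1 h1
            exact Or.inl ⟨x, s, t, hs, ht, hx1, hx2⟩
        rcases hsplit with h | h
        · exact key f g hf hg h hh'
        · exact key g f hg hf h hh'.symm
      · intro hh
        congr 1
        ext z
        constructor
        · rintro ⟨h, hh1, rfl⟩
          refine ⟨h, ?_, rfl⟩
          filter_upwards [hh, hh1] with i h1 ⟨s, h2, h3⟩
          exact ⟨s, h1 ▸ h2, h3⟩
        · rintro ⟨h, hh1, rfl⟩
          refine ⟨h, ?_, rfl⟩
          filter_upwards [hh, hh1] with i h1 ⟨s, h2, h3⟩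
          exact ⟨s, h1 ▸ h2, h3⟩

theorem ind_or_set {n : ℕ} (f : ι → Lvl X (n + 1)) :
    (∃ h : ι → X, ∀ᶠ i in (W : Filter ι), f i = ind (n + 1) (h i)) ∨
      ∀ᶠ i in (W : Filter ι), ∃ s, f i = set s := by
  rcases Ultrafilter.em W (fun i => ∃ x, f i = ind (n + 1) x) with h | h
  · left
    classical
    refine ⟨fun i => if h : ∃ x, f i = ind (n + 1) x then h.choose else default, ?_⟩
    filter_upwards [h] with i hi
    rw [dif_pos hi]
    exact hi.choose_spec
  · right
    filter_upwards [h] with i hi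
    rcases cases_succ (f i) with h' | h'
    · exact absurd h' hi
    · exact h'

theorem col_up : ∀ (n : ℕ) (f : ι → Lvl X n),
    col W (n + 1) (fun i => up n (f i)) = up n (col W n f)
  | 0, f => col_ind W (n := 1) (h := fun i => asInd (f i)) (Eventually.of_forall fun i => rfl)
  | n + 1, f => by
    rcases ind_or_set W f with ⟨h, hf⟩ | hf
    · rw [col_ind W hf, up_ind]
      refine col_ind W ?_
      filter_upwards [hf] with i hi
      rw [hi, up_ind]
    · have hf' : ∀ᶠ i in (W : Filter ι), ∃ s, up (n + 1) (f i) = set s := by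
        filter_upwards [hf] with i ⟨s, hs⟩
        exact ⟨up n '' s, by rw [hs, up_set]⟩
      rw [col_set W hf, col_set W hf', up_set]
      congr 1
      ext z
      constructor
      · rintro ⟨g, hg, rfl⟩
        have hne : Nonempty (Lvl X n) := ⟨ind n default⟩
        have hg' : ∀ᶠ i in (W : Filter ι), ∃ x, (∃ s, f i = set s ∧ x ∈ s) ∧ g i = up n x := by
          filter_upwards [hg, hf] with i ⟨s, hs, hgs⟩ ⟨t, ht⟩
          rw [ht, up_set] at hs
          rw [← set_injective hs] at hgs
          obtain ⟨x, hx, hxg⟩ := hgs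
          exact ⟨x, ⟨t, ht, hx⟩, hxg.symm⟩
        choose! x hx using fun i (hi : ∃ x, (∃ s, f i = set s ∧ x ∈ s) ∧ g i = up n x) => hi
        refine ⟨col W n x, ⟨x, hg'.mono fun i hi => (hx i hi).1, rfl⟩, ?_⟩
        rw [← col_up n x]
        exact (col_eq_iff W).2 (hg'.mono fun i hi => (hx i hi).2.symm)
      · rintro ⟨_, ⟨g, hg, rfl⟩, rfl⟩
        refine ⟨fun i => up n (g i), ?_, (col_up n g).symm⟩
        filter_upwards [hg] with i ⟨s, hs, hgs⟩
        exact ⟨up n '' s, by rw [hs, up_set], g i, hgs, rfl⟩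

theorem col_upTo {m n : ℕ} (h : m ≤ n) (f : ι → Lvl X m) :
    col W n (fun i => upTo h (f i)) = upTo h (col W m f) := by
  induction n, h using Nat.le_induction with
  | base => simp only [upTo_self]
  | succ n h ih =>
    rw [upTo_succ h, ← ih, ← col_up]
    congr 1
    funext i
    exact upTo_succ h _ _

/-- `Rep W f y`: the element `y` of the superstructure over the ultrapower is the class of the
function `f`, whose values lie in one level of the superstructure. -/
def Rep (f : ι → V X) (y : V (Germ (W : Filter ι) X)) : Prop :=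
  ∃ (n : ℕ) (f' : ι → Lvl X n), (∀ i, f i = el n (f' i)) ∧ y = el n (col W n f')

variable {W}

theorem Rep.raise {f : ι → V X} {y : V (Germ (W : Filter ι) X)} (h : Rep W f y) :
    ∃ n, ∀ N, n ≤ N → ∃ f' : ι → Lvl X N, (∀ i, f i = el N (f' i)) ∧ y = el N (col W N f') := by
  obtain ⟨n, f', hf, hy⟩ := h
  refine ⟨n, fun N hN => ⟨fun i => upTo hN (f' i), fun i => ?_, ?_⟩⟩
  · rw [el_upTo, hf]
  · rw [col_upTo, el_upTo, hy]

theorem Rep.eq_iff {f g : ι → V X} {y z : V (Germ (W : Filter ι) X)} (hf : Rep W f y)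
    (hg : Rep W g z) : y = z ↔ ∀ᶠ i in (W : Filter ι), f i = g i := by
  obtain ⟨n, hn⟩ := hf.raise
  obtain ⟨m, hm⟩ := hg.raise
  obtain ⟨f', hf', rfl⟩ := hn (max n m) (le_max_left _ _)
  obtain ⟨g', hg', rfl⟩ := hm (max n m) (le_max_right _ _)
  rw [(el_injective _).eq_iff, col_eq_iff]
  refine eventually_congr (Eventually.of_forall fun i => ?_)
  rw [hf', hg', (el_injective _).eq_iff]

theorem Rep.mem_iff {f g : ι → V X} {y z : V (Germ (W : Filter ι) X)} (hf : Rep W f y)
    (hg : Rep W g z) : Mem y z ↔ ∀ᶠ i in (W : Filter ι), Mem (f i) (g i) := by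
  obtain ⟨n, hn⟩ := hf.raise
  obtain ⟨m, hm⟩ := hg.raise
  obtain ⟨f', hf', rfl⟩ := hn (max n m) (le_max_left _ _)
  obtain ⟨g', hg', rfl⟩ := hm (max n m + 1) ((le_max_right _ _).trans (Nat.le_succ _))
  rcases ind_or_set W g' with ⟨h, hh⟩ | hh
  · rw [col_ind W hh]
    constructor
    · intro hmem
      obtain ⟨x, s, -, h2, -⟩ := mem_level hmem
      exact absurd h2 (ind_ne_set _ _)
    · intro hmem
      obtain ⟨i, h1, h2⟩ := (hmem.and hh).exists
      rw [hf', hg', h2] at h1
      obtain ⟨x, s, -, h3, -⟩ := mem_level h1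
      exact absurd h3 (ind_ne_set _ _)
  · rw [col_set W hh, mem_el]
    constructor
    · rintro ⟨k, hk, hfk⟩
      rw [col_eq_iff] at hfk
      filter_upwards [hk, hfk] with i ⟨s, hs, hks⟩ hi
      rw [hf', hg', hs, mem_el, hi]
      exact hks
    · intro hmem
      refine ⟨f', ?_, rfl⟩
      filter_upwards [hmem, hh] with i hi ⟨s, hs⟩
      rw [hf', hg', hs, mem_el] at hi
      exact ⟨s, hs, hi⟩

theorem Rep.of_mem {g : ι → V X} {y z : V (Germ (W : Filter ι) X)} (hg : Rep W g z)
    (h : Mem y z) : ∃ f, Rep W f y := by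
  obtain ⟨m, hm⟩ := hg.raise
  obtain ⟨g', hg', rfl⟩ := hm (m + 1) (Nat.le_succ _)
  obtain ⟨x, s, rfl, h2, h3⟩ := mem_level h
  rcases ind_or_set W g' with ⟨h, hh⟩ | hh
  · rw [col_ind W hh] at h2
    exact absurd h2 (ind_ne_set _ _)
  · rw [col_set W hh] at h2
    rw [← set_injective h2] at h3
    obtain ⟨k, hk, rfl⟩ := h3
    exact ⟨fun i => el m (k i), m, k, fun i => rfl, rfl⟩

theorem Rep.witness {g : ι → V X} {z : V (Germ (W : Filter ι) X)} (hg : Rep W g z)
    {P : ι → V X → Prop} (h : ∀ᶠ i in (W : Filter ι), ∃ a, Mem a (g i) ∧ P i a) :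
    ∃ f y, Rep W f y ∧ Mem y z ∧ ∀ᶠ i in (W : Filter ι), P i (f i) := by
  obtain ⟨m, hm⟩ := hg.raise
  obtain ⟨g', hg', rfl⟩ := hm (m + 1) (Nat.le_succ _)
  have hne : Nonempty (Lvl X m) := ⟨ind m default⟩
  have h' : ∀ᶠ i in (W : Filter ι), ∃ x : Lvl X m, Mem (el m x) (g i) ∧ P i (el m x) := by
    filter_upwards [h] with i ⟨a, ha, hP⟩
    have ha' := ha
    rw [hg'] at ha
    obtain ⟨x, s, rfl, -, -⟩ := mem_level ha
    exact ⟨x, ha', hP⟩
  choose! x hx using fun i (hi : ∃ x : Lvl X m, Mem (el m x) (g i) ∧ P i (el m x)) => hi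
  have hrep : Rep W (fun i => el m (x i)) (el m (col W m x)) := ⟨m, x, fun i => rfl, rfl⟩
  refine ⟨fun i => el m (x i), el m (col W m x), hrep, ?_, h'.mono fun i hi => (hx i hi).2⟩
  exact (hrep.mem_iff ⟨m + 1, g', hg', rfl⟩).2 (h'.mono fun i hi => (hx i hi).1)

/-- Łoś's theorem for bounded formulas. -/
theorem los : ∀ {k : ℕ} (φ : Fml k) (f : Fin k → ι → V X)
    (y : Fin k → V (Germ (W : Filter ι) X)), (∀ j, Rep W (f j) (y j)) →
    (Sat φ y ↔ ∀ᶠ i in (W : Filter ι), Sat φ (fun j => f j i))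
  | _, .eq i j, f, y, h => (h i).eq_iff (h j)
  | _, .mem i j, f, y, h => (h i).mem_iff (h j)
  | _, .neg φ, f, y, h => by
    show ¬ Sat φ y ↔ ∀ᶠ i in (W : Filter ι), ¬ Sat φ (fun j => f j i)
    rw [los φ f y h, Ultrafilter.eventually_not]
  | _, .and φ ψ, f, y, h => by
    show Sat φ y ∧ Sat ψ y ↔
      ∀ᶠ i in (W : Filter ι), Sat φ (fun j => f j i) ∧ Sat ψ (fun j => f j i)
    rw [los φ f y h, los ψ f y h, eventually_and]
  | k, .ball a φ, f, y, h => by
    show (∀ z, Mem z (y a) → Sat φ (Fin.snoc (α := fun _ => V (Germ (W : Filter ι) X)) y z)) ↔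
      ∀ᶠ i in (W : Filter ι), ∀ z, Mem z (f a i) →
        Sat φ (Fin.snoc (α := fun _ => V X) (fun j => f j i) z)
    have key : ∀ (g : ι → V X) (z : V (Germ (W : Filter ι) X)), Rep W g z →
        (Sat φ (Fin.snoc (α := fun _ => V (Germ (W : Filter ι) X)) y z) ↔
          ∀ᶠ i in (W : Filter ι), Sat φ (Fin.snoc (α := fun _ => V X) (fun j => f j i) (g i))) := by
      intro g z hg
      rw [los φ (Fin.snoc (α := fun _ => ι → V X) f g)
        (Fin.snoc (α := fun _ => V (Germ (W : Filter ι) X)) y z) ?_]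
      · refine eventually_congr (Eventually.of_forall fun i => ?_)
        refine iff_of_eq (congrArg (Sat φ) ?_)
        funext j
        refine Fin.lastCases ?_ (fun j => ?_) j
        · simp
        · simp
      · intro j
        refine Fin.lastCases ?_ (fun j => ?_) j
        · simpa using hg
        · simpa using h j
    constructor
    · intro hall
      by_contra hcon
      rw [← Ultrafilter.eventually_not] at hcon
      have hcon' : ∀ᶠ i in (W : Filter ι), ∃ z, Mem z (f a i) ∧
          ¬ Sat φ (Fin.snoc (α := fun _ => V X) (fun j => f j i) z) := by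
        filter_upwards [hcon] with i hi
        push Not at hi
        exact hi
      obtain ⟨g, z, hg, hz, hP⟩ := (h a).witness hcon'
      have := (key g z hg).1 (hall z hz)
      obtain ⟨i, h1, h2⟩ := (this.and hP).exists
      exact h2 h1
    · intro hev z hz
      obtain ⟨g, hg⟩ := (h a).of_mem hz
      rw [key g z hg]
      filter_upwards [hev, (hg.mem_iff (h a)).1 hz] with i h1 h2
      exact h1 _ h2

theorem exists_rep_const (W : Ultrafilter ι) (a : V X) : ∃ y, Rep W (fun _ => a) y := by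
  obtain ⟨n, x, rfl⟩ := exists_el a
  exact ⟨_, n, fun _ => x, fun _ => rfl, rfl⟩

omit [Inhabited X] in
theorem exists_ofFun (z : Lvl (Germ (W : Filter ι) X) 0) :
    ∃ g : ι → X, z = ind 0 (g : Germ (W : Filter ι) X) := by
  have h : ∀ z : Germ (W : Filter ι) X, ∃ g : ι → X, z = (g : Germ (W : Filter ι) X) :=
    fun z => Germ.inductionOn z fun g => ⟨g, rfl⟩
  exact h z

/-- The nonstandard extension given by the bounded ultrapower. -/
noncomputable def ultra (X : Type u) [Inhabited X] (W : Ultrafilter ι) :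
    NonstdExt X (Germ (W : Filter ι) X) where
  star a := (exists_rep_const W a).choose
  star_univ := by
    have h := (exists_rep_const W (ofSet (Set.univ : Set X))).choose_spec
    have h' : Rep W (fun _ => ofSet (Set.univ : Set X)) (ofSet Set.univ) := by
      refine ⟨1, fun _ => set (ind 0 '' Set.univ), fun _ => rfl, ?_⟩
      rw [col_set W (Eventually.of_forall fun _ => ⟨_, rfl⟩)]
      show el 1 (set _) = el 1 (set _)
      congr 2
      ext z
      obtain ⟨g, rfl⟩ := exists_ofFun z
      constructor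
      · intro _
        refine ⟨fun i => ind 0 (g i), Eventually.of_forall fun i => ⟨_, rfl, g i, trivial, rfl⟩, ?_⟩
        exact (col_ind W (Eventually.of_forall fun i => rfl)).symm
      · intro _
        exact ⟨_, trivial, rfl⟩
    exact (h.eq_iff h').2 (Eventually.of_forall fun _ => rfl)
  transfer := by
    intro k φ w
    rw [los φ (fun j _ => w j) _ (fun j => (exists_rep_const W (w j)).choose_spec)]
    simp

theorem ultra_rep (W : Ultrafilter ι) (a : V X) : Rep W (fun _ => a) ((ultra X W).star a) :=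
  (exists_rep_const W a).choose_spec

theorem rep_atom (W : Ultrafilter ι) (g : ι → X) :
    Rep W (fun i => atom (g i)) (atom (g : Germ (W : Filter ι) X)) :=
  ⟨0, fun i => ind 0 (g i), fun _ => rfl,
    congrArg (el 0) (col_ind W (Eventually.of_forall fun _ => rfl)).symm⟩

theorem mem_ofSet {X : Type u} {x : X} {A : Set X} : Mem (atom x) (ofSet A) ↔ x ∈ A := by
  rw [atom, ofSet, mem_el]
  exact (ind_injective 0).mem_set_image

theorem mem_star_ofSet {W : Ultrafilter ι} {g : ι → X} {A : Set X} :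
    Mem (atom (g : Germ (W : Filter ι) X)) ((ultra X W).star (ofSet A)) ↔
      ∀ᶠ i in (W : Filter ι), g i ∈ A := by
  rw [(rep_atom W g).mem_iff (ultra_rep W _)]
  simp only [mem_ofSet]

theorem col_pair {n : ℕ} (f g : ι → Lvl X n) :
    col W (n + 1) (fun i => set {f i, g i}) = set {col W n f, col W n g} := by
  rw [col_set W (Eventually.of_forall fun _ => ⟨_, rfl⟩)]
  congr 1
  ext z
  constructor
  · rintro ⟨h, hh, rfl⟩
    have hh' : (∀ᶠ i in (W : Filter ι), h i = f i) ∨ ∀ᶠ i in (W : Filter ι), h i = g i := by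
      rw [← Ultrafilter.eventually_or]
      filter_upwards [hh] with i ⟨s, hs, his⟩
      rw [← set_injective hs] at his
      exact his
    rcases hh' with h1 | h1
    · exact Or.inl ((col_eq_iff W).2 h1)
    · exact Or.inr ((col_eq_iff W).2 h1)
  · rintro (h1 | h1)
    · exact ⟨f, Eventually.of_forall fun i => ⟨_, rfl, Or.inl rfl⟩, h1⟩
    · exact ⟨g, Eventually.of_forall fun i => ⟨_, rfl, Or.inr rfl⟩, h1⟩

theorem col_opair {n : ℕ} (f g : ι → Lvl X n) :
    col W (n + 2) (fun i => opair (f i) (g i)) = opair (col W n f) (col W n g) := by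
  have h1 : (fun i => opair (f i) (g i)) = fun i => set {set {f i, f i}, set {f i, g i}} := by
    funext i
    rw [opair, Set.pair_eq_singleton]
  rw [h1, col_pair, col_pair, col_pair, opair, Set.pair_eq_singleton]

theorem rep_triple (W : Ultrafilter ι) (f g h : ι → X) :
    Rep W (fun i => el 4 (triple (f i) (g i) (h i)))
      (el 4 (triple (f : Germ (W : Filter ι) X) (g : Germ (W : Filter ι) X)
        (h : Germ (W : Filter ι) X))) := by
  refine ⟨4, fun i => triple (f i) (g i) (h i), fun _ => rfl, ?_⟩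
  unfold triple
  rw [col_opair, col_opair, col_ind W (Eventually.of_forall fun _ => rfl),
    col_ind W (Eventually.of_forall fun _ => rfl), col_ind W (Eventually.of_forall fun _ => rfl)]

end Ultrapower

theorem opair_inj {X : Type u} {n : ℕ} {x y a b : Lvl X n} (h : opair x y = opair a b) :
    x = a ∧ y = b := by
  have h' := set_injective h
  rw [Set.pair_eq_pair_iff] at h'
  simp only [set_injective.eq_iff] at h'
  rcases h' with ⟨h1, h2⟩ | ⟨h1, h2⟩
  · have h1' : x = a := Set.singleton_eq_singleton_iff.1 h1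
    subst h1'
    rw [Set.pair_eq_pair_iff] at h2
    rcases h2 with ⟨_, h3⟩ | ⟨h3, h4⟩
    · exact ⟨rfl, h3⟩
    · exact ⟨rfl, h4.trans h3⟩
  · have h3 : a ∈ ({x} : Set (Lvl X n)) := by rw [h1]; exact Or.inl rfl
    have h4 : b ∈ ({x} : Set (Lvl X n)) := by rw [h1]; exact Or.inr rfl
    have h5 : y ∈ ({a} : Set (Lvl X n)) := by rw [← h2]; exact Or.inr rfl
    rw [Set.mem_singleton_iff] at h3 h4 h5
    subst h3
    exact ⟨rfl, h5.trans h4.symm⟩

theorem mem_mulGraph {a b c : ℕ+} : Mem (el 4 (triple a b c)) mulGraph ↔ a * b = c := by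
  rw [mulGraph, mem_el]
  constructor
  · rintro ⟨a', b', h⟩
    obtain ⟨h1, h2⟩ := opair_inj h
    obtain ⟨h3, h4⟩ := opair_inj h1
    rw [ind_injective _ h3, ind_injective _ h4, ind_injective _ h2]
  · rintro rfl
    exact ⟨a, b, rfl⟩

theorem dvd_iff {ι : Type} {W : Ultrafilter ι} {f g : ι → ℕ+}
    (h : (ultra ℕ+ W).Dvd (f : Germ (W : Filter ι) ℕ+) (g : Germ (W : Filter ι) ℕ+)) :
    ∀ᶠ i in (W : Filter ι), f i ∣ g i := by
  obtain ⟨z, hz⟩ := h
  obtain ⟨k, hk⟩ := exists_ofFun (W := W) z
  have hk' : z = (k : Germ (W : Filter ι) ℕ+) := hk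
  subst hk'
  rw [(rep_triple W f k g).mem_iff (ultra_rep W _)] at hz
  filter_upwards [hz] with i hi
  rw [mem_mulGraph] at hi
  exact ⟨k i, hi.symm⟩

/-! ## Two facts on ultrafilters on the positive integers -/

theorem exists_greatest : ∃ G : Ultrafilter ℕ+, ∀ F : Ultrafilter ℕ+, UDvd F G := by
  obtain ⟨G, hG⟩ := Ultrafilter.exists_ultrafilter_of_finite_inter_nonempty
    {B : Set ℕ+ | ∃ A : Set ℕ+, A.Nonempty ∧ B = {n : ℕ+ | ∃ a ∈ A, a ∣ n}} (by
      intro T hT
      have h : ∀ B ∈ T, ∃ a : ℕ+, ∀ n : ℕ+, a ∣ n → n ∈ B := by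
        intro B hB
        obtain ⟨A, ⟨a, ha⟩, rfl⟩ := hT hB
        exact ⟨a, fun n hn => ⟨a, ha, hn⟩⟩
      choose! a ha using h
      refine ⟨∏ B ∈ T, a B, fun B hB => ha B hB _ (Finset.dvd_prod_of_mem a hB)⟩)
  exact ⟨G, fun F A hA => hG ⟨A, F.nonempty_of_mem hA, rfl⟩⟩

theorem exists_ne_map (G : Ultrafilter ℕ+) : ∃ F : Ultrafilter ℕ+, ∀ d : ℕ+ → ℕ+, F ≠ G.map d := by
  classical
  -- a countable set carrying an independent family indexed by the functions `d`
  let C := Finset (ℕ+ × ℕ+) × Finset (Finset (ℕ+ × ℕ+))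
  obtain ⟨e, he⟩ : ∃ e : C → ℕ+, Function.Injective e := by
    obtain ⟨e, he⟩ := exists_injective_nat C
    exact ⟨fun c => (e c).succPNat, fun a b h => he (Nat.succPNat_injective h)⟩
  let P : (ℕ+ → ℕ+) → C → Prop := fun d c => c.1.filter (fun p => d p.1 = p.2) ∈ c.2
  let A : (ℕ+ → ℕ+) → Set ℕ+ := fun d => e '' {c | P d c}
  let B : (ℕ+ → ℕ+) → Set ℕ+ := fun d => if A d ∈ G.map d then (A d)ᶜ else A d
  obtain ⟨F, hF⟩ := Ultrafilter.exists_ultrafilter_of_finite_inter_nonempty
    {S : Set ℕ+ | ∃ d, S = B d} (by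
      intro T hT
      have h : ∀ S ∈ T, ∃ d, S = B d := fun S hS => hT hS
      choose! d hd using h
      let D : Finset (ℕ+ → ℕ+) := T.image d
      -- a finite set of points distinguishing the elements of `D`
      have hsep : ∀ p : (ℕ+ → ℕ+) × (ℕ+ → ℕ+), p.1 ≠ p.2 → ∃ n, p.1 n ≠ p.2 n := by
        intro p hp
        by_contra hcon
        push Not at hcon
        exact hp (funext hcon)
      choose! m hm using hsep
      let s : Finset (ℕ+ × ℕ+) := (D ×ˢ D).image fun p => (m p, p.1 (m p))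
      let 𝒯 : Finset (Finset (ℕ+ × ℕ+)) :=
        (D.filter fun d => A d ∉ G.map d).image fun d => s.filter fun p => d p.1 = p.2
      have hP : ∀ d ∈ D, (P d (s, 𝒯) ↔ A d ∉ G.map d) := by
        intro d hd
        constructor
        · intro h
          obtain ⟨d', hd', hdd'⟩ := Finset.mem_image.1 h
          rw [Finset.mem_filter] at hd'
          by_cases hne : d = d'
          · rw [hne]; exact hd'.2
          · exfalso
            have h1 : (m (d, d'), d (m (d, d'))) ∈ s :=
              Finset.mem_image.2 ⟨(d, d'), Finset.mem_product.2 ⟨hd, hd'.1⟩, rfl⟩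
            have h2 : (m (d, d'), d (m (d, d'))) ∈ s.filter fun p => d p.1 = p.2 :=
              Finset.mem_filter.2 ⟨h1, rfl⟩
            have hdd'' : (s.filter fun p => d' p.1 = p.2) = s.filter fun p => d p.1 = p.2 := hdd'
            rw [← hdd''] at h2
            exact hm (d, d') hne (Finset.mem_filter.1 h2).2.symm
        · intro h
          exact Finset.mem_image.2 ⟨d, Finset.mem_filter.2 ⟨hd, h⟩, rfl⟩
      refine ⟨e (s, 𝒯), fun S hS => ?_⟩
      have hdD : d S ∈ D := Finset.mem_image_of_mem d hS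
      have hmem : e (s, 𝒯) ∈ A (d S) ↔ P (d S) (s, 𝒯) := he.mem_set_image
      rw [hd S hS]
      show e (s, 𝒯) ∈ if A (d S) ∈ G.map (d S) then (A (d S))ᶜ else A (d S)
      split_ifs with h
      · rw [Set.mem_compl_iff, hmem, hP _ hdD]
        exact not_not.2 h
      · rw [hmem, hP _ hdD]
        exact h)
  refine ⟨F, fun d hFd => ?_⟩
  have hB : B d ∈ F := hF ⟨d, rfl⟩
  by_cases h : A d ∈ G.map d
  · have h1 : (A d)ᶜ ∈ F := by
      have : B d = (A d)ᶜ := if_pos h
      rwa [this] at hB
    rw [hFd] at h1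
    exact (Ultrafilter.compl_mem_iff_notMem.1 h1) h
  · have h1 : A d ∈ F := by
      have : B d = A d := if_neg h
      rwa [this] at hB
    rw [hFd] at h1
    exact h h1

/-! ## The main result -/

/-- There are an enlargement of the superstructure over the positive integers, ultrafilters
`F ~| G` on the positive integers and an element `y` of the monad of `G` which is not divisible by
any element of the monad of `F`. -/
theorem main : ∃ (Y : Type) (E : NonstdExt ℕ+ Y), E.IsEnlargement ∧
    ∃ F G : Ultrafilter ℕ+, UDvd F G ∧ ∃ y ∈ E.monad G, ∀ x ∈ E.monad F, ¬ E.Dvd x y := by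
  classical
  obtain ⟨G, hG⟩ := exists_greatest
  obtain ⟨F, hF⟩ := exists_ne_map G
  let H : Ultrafilter (Finset (V ℕ+)) := Ultrafilter.of atTop
  have hH : ∀ A : V ℕ+, ∀ᶠ i in (H : Filter (Finset (V ℕ+))), A ∈ i := by
    intro A
    have h1 : ∀ᶠ i in (atTop : Filter (Finset (V ℕ+))), A ∈ i := by
      filter_upwards [eventually_ge_atTop ({A} : Finset (V ℕ+))] with i hi
      exact hi (Finset.mem_singleton_self A)
    exact (Ultrafilter.of_le atTop) h1
  let W : Ultrafilter (ℕ+ × Finset (V ℕ+)) := G.bind fun m => H.map (Prod.mk m)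
  have hW : ∀ p : ℕ+ × Finset (V ℕ+) → Prop,
      (∀ᶠ i in (W : Filter (ℕ+ × Finset (V ℕ+))), p i) ↔
        ∀ᶠ m in (G : Filter ℕ+), ∀ᶠ i in (H : Filter (Finset (V ℕ+))), p (m, i) :=
    fun p => Iff.rfl
  refine ⟨_, ultra ℕ+ W, ?_, F, G, hG F,
    ((fun p => p.1 : ℕ+ × Finset (V ℕ+) → ℕ+) : Germ (W : Filter (ℕ+ × Finset (V ℕ+))) ℕ+), ?_, ?_⟩
  · -- enlargement
    intro 𝒜 h𝒜
    rcases 𝒜.eq_empty_or_nonempty with rfl | ⟨A₀, hA₀⟩
    · obtain ⟨z, hz⟩ := h𝒜 ∅ (by simp)
      exact ⟨(ultra ℕ+ W).star z, by simp⟩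
    · have h1 : ∀ i : Finset (V ℕ+), ∃ z, Mem z A₀ ∧ ∀ A ∈ i, A ∈ 𝒜 → Mem z A := by
        intro i
        obtain ⟨z, hz⟩ := h𝒜 (insert A₀ (i.filter (· ∈ 𝒜))) (by
          intro A hA
          rcases Finset.mem_insert.1 hA with rfl | hA
          · exact hA₀
          · exact (Finset.mem_filter.1 hA).2)
        exact ⟨z, hz _ (Finset.mem_insert_self _ _), fun A hA hA' =>
          hz A (Finset.mem_insert_of_mem (Finset.mem_filter.2 ⟨hA, hA'⟩))⟩
      choose c hc0 hc using h1
      obtain ⟨f, y, hf, -, hfc⟩ := (ultra_rep W A₀).witness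
        (P := fun i z => z = c i.2) (Eventually.of_forall fun i => ⟨c i.2, hc0 i.2, rfl⟩)
      refine ⟨y, fun A hA => ?_⟩
      rw [hf.mem_iff (ultra_rep W A)]
      have h2 : ∀ᶠ i in (W : Filter (ℕ+ × Finset (V ℕ+))), A ∈ i.2 :=
        (hW _).2 (Eventually.of_forall fun m => hH A)
      filter_upwards [hfc, h2] with i h3 h4
      rw [h3]
      exact hc i.2 A h4 hA
  · intro A hA
    rw [mem_star_ofSet, hW]
    filter_upwards [hA] with m hm
    exact Eventually.of_forall fun _ => hm
  · intro x hx hdvd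
    obtain ⟨g, hg⟩ := exists_ofFun (W := W) x
    have hg' : x = (g : Germ (W : Filter (ℕ+ × Finset (V ℕ+))) ℕ+) := hg
    subst hg'
    have h1 := dvd_iff hdvd
    rw [hW] at h1
    have h2 : ∀ᶠ m in (G : Filter ℕ+), ∃ d : ℕ+, ∀ᶠ i in (H : Filter (Finset (V ℕ+))),
        g (m, i) = d := by
      filter_upwards [h1] with m hm
      have hfin : (Set.Iic m).Finite := Set.finite_Iic m
      have h3 : ∀ᶠ i in (H : Filter (Finset (V ℕ+))), ∃ d ∈ Set.Iic m, g (m, i) = d := by
        filter_upwards [hm] with i hi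
        exact ⟨g (m, i), PNat.le_of_dvd hi, rfl⟩
      rw [Ultrafilter.eventually_exists_mem_iff hfin] at h3
      obtain ⟨d, -, hd⟩ := h3
      exact ⟨d, hd⟩
    choose! d hd using fun m (hm : ∃ d : ℕ+, ∀ᶠ i in (H : Filter (Finset (V ℕ+))),
      g (m, i) = d) => hm
    apply hF d
    symm
    refine Ultrafilter.eq_of_le fun A hA => ?_
    have h3 := hx A hA
    rw [mem_star_ofSet, hW] at h3
    show ∀ᶠ m in (G : Filter ℕ+), d m ∈ A
    filter_upwards [h2, h3] with m hm hm'
    obtain ⟨i, h4, h5⟩ := ((hd m hm).and hm').exists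
    rw [← h4]
    exact h5

end Pool.Agent.Lib.MP_c54df4_lc
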